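import Pool.Agent.Lib.MP_688fd0_co.ASY.H91.Cross
import Pool.Agent.Lib.MP_688fd0_co.LIN.H89.Base

/-!
TB-TRANS: a separation somewhere gives a cut of every long slab.
-/

set_option autoImplicit false

namespace Pool.Agent.Lib.MP_688fd0_co.ASY.H20

open Classical
open Pool.Agent.Lib.MP_688fd0_co.LP (IsP Conn Cyc Symm cay)
open Pool.Agent.Lib.MP_688fd0_co.LIN
open Pool.Agent.Lib.MP_688fd0_co.LIN.H89 (dist_map)
open Pool.Agent.Lib.MP_688fd0_co.ASY.H91 (mem_sl cross)

universe u

/-- image of a walk under an automorphism -/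
theorem conn_map {V : Type u} {G : SimpleGraph V} {F F' : Set V} (ψ : G ≃g G) (h : ∀ v ∈ F, ψ v ∈ F') {x y : V}
    (hc : Conn G F x y) : Conn G F' (ψ x) (ψ y) := by
  obtain ⟨hx, hxy⟩ := hc
  refine ⟨h x hx, ?_⟩
  induction hxy with
  | refl => exact Relation.ReflTransGen.refl
  | @tail v v' _ hadj ih => exact ih.tail ⟨ψ.map_rel_iff.2 hadj.1, h v' hadj.2⟩

/-- TB-TRANS -/
theorem trans (hN : NearStatement.{u}) : TransStatement.{u} := by
  intro V _ G r w D γ hO c c' Y _ hsep a b ha hab hb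
  obtain ⟨n1, -, -, n4, -, -, -⟩ := hN V G r w D γ hO
  have hc : G.Connected := hO.vt.conn
  have hw : 1 ≤ w := by rw [hO.w_eq]; omega
  set s := G.dist c c' with hs
  obtain ⟨t, ht⟩ : ∃ t, t = a + s + 50 * w := ⟨_, rfl⟩
  obtain ⟨φ, hφ⟩ := hO.vt.tr c (γ t)
  set y₀ := φ c' with hy₀
  have hd0 : G.dist (γ t) y₀ = s := by rw [← hφ, hy₀, dist_map]
  obtain ⟨hyom, hy1, hy2⟩ := n4 t s y₀ (by omega) (by omega) hd0.le
  set hh := G.dist (γ 0) y₀ with hhh
  have hy3 := (n1 y₀ hyom).2
  rw [← hhh] at hy3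
  have hsym : ∀ v, φ (φ.symm v) = v := fun v => φ.apply_symm_apply v
  have hdc : ∀ v, G.dist c (φ.symm v) = G.dist (γ t) v := by
    intro v; rw [← dist_map φ, hsym, hφ]
  have hdc' : ∀ v, G.dist c' (φ.symm v) = G.dist y₀ v := by
    intro v; rw [← dist_map φ, hsym]
  refine ⟨(Y.image φ).filter (fun x => x ∈ sl G γ w D a b), ⟨?_, ?_⟩, ?_⟩
  · intro x hx
    exact (Finset.mem_filter.1 hx).2
  · intro x y hx hy hP
    have hnotY : ∀ v, v ∈ (↑(sl G γ w D a b) : Set V) →
        v ∉ (↑((Y.image φ).filter (fun x => x ∈ sl G γ w D a b)) : Set V) → φ.symm v ∉ Y := by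
      intro v hv hvX hvY
      apply hvX
      rw [Finset.mem_coe, Finset.mem_filter]
      exact ⟨Finset.mem_image.2 ⟨φ.symm v, hvY, hsym v⟩, hv⟩
    -- distances for a vertex between the two heights
    have key : ∀ v ∈ om G γ w D, ∀ p, G.dist (γ 0) v = p → p ≤ D ∧ G.dist (γ p) v ≤ 2 * w := by
      intro v hv p hp
      have h1 := n1 v hv
      rw [hp] at h1
      exact ⟨h1.1, by rw [SimpleGraph.dist_comm]; exact h1.2⟩
    have hy0g : G.dist y₀ (γ hh) ≤ 2 * w := hy3
    rcases Nat.le_total t hh with hcase | hcase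
    · obtain ⟨x', y', h1, h2, h3, -, -⟩ := cross V G r w D γ hO a b t hh _ x y (by omega) hcase (by omega) hP
        (by omega) (by omega)
      have hlens : ∀ v ∈ ((↑(sl G γ w D t hh) : Set V) \
          ↑((Y.image φ).filter (fun x => x ∈ sl G γ w D a b))),
          φ.symm v ∈ ({v | G.dist c v + G.dist c' v ≤ G.dist c c' + 6 * w} \ (↑Y : Set V)) := by
        rintro v ⟨hv1, hv2⟩
        rw [Finset.mem_coe, mem_sl] at hv1
        refine ⟨?_, hnotY v (Finset.mem_coe.2 (mem_sl.2 ⟨hv1.1, by omega, by omega⟩)) hv2⟩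
        simp only [Set.mem_ofPred_eq]
        rw [hdc, hdc', ← hs]
        obtain ⟨k1, k2⟩ := key v hv1.1 _ rfl
        set p := G.dist (γ 0) v
        have g1 : G.dist (γ t) (γ p) = p - t := hO.geo _ _ hv1.2.1 k1
        have g2 : G.dist (γ p) (γ hh) = hh - p := hO.geo _ _ hv1.2.2 (by omega)
        have t1 := hc.dist_triangle (u := γ t) (v := γ p) (w := v)
        have t2 := hc.dist_triangle (u := y₀) (v := γ hh) (w := v)
        have t3 := hc.dist_triangle (u := γ hh) (v := γ p) (w := v)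
        rw [SimpleGraph.dist_comm (u := γ hh) (v := γ p)] at t3
        omega
      have hc1 := conn_map φ.symm hlens h3
      have m1 := (mem_sl.1 (Finset.mem_coe.1 h3.left_mem.1)).1
      have m2 := (mem_sl.1 (Finset.mem_coe.1 h3.right_mem.1)).1
      refine hsep _ _ ?_ ?_ hc1
      · rw [hdc]
        have := (key x' m1 t h1).2
        omega
      · rw [hdc']
        have k1 := (key y' m2 hh h2).2
        have t2 := hc.dist_triangle (u := y₀) (v := γ hh) (w := y')
        omega
    · obtain ⟨x', y', h1, h2, h3, -, -⟩ := cross V G r w D γ hO a b hh t _ x y (by omega) hcase (by omega) hP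
        (by omega) (by omega)
      have hlens : ∀ v ∈ ((↑(sl G γ w D hh t) : Set V) \
          ↑((Y.image φ).filter (fun x => x ∈ sl G γ w D a b))),
          φ.symm v ∈ ({v | G.dist c v + G.dist c' v ≤ G.dist c c' + 6 * w} \ (↑Y : Set V)) := by
        rintro v ⟨hv1, hv2⟩
        rw [Finset.mem_coe, mem_sl] at hv1
        refine ⟨?_, hnotY v (Finset.mem_coe.2 (mem_sl.2 ⟨hv1.1, by omega, by omega⟩)) hv2⟩
        simp only [Set.mem_ofPred_eq]
        rw [hdc, hdc', ← hs]
        obtain ⟨k1, k2⟩ := key v hv1.1 _ rfl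
        set p := G.dist (γ 0) v
        have g1 : G.dist (γ p) (γ t) = t - p := hO.geo _ _ hv1.2.2 (by omega)
        have g2 : G.dist (γ hh) (γ p) = p - hh := hO.geo _ _ hv1.2.1 k1
        have t1 := hc.dist_triangle (u := γ t) (v := γ p) (w := v)
        have t2 := hc.dist_triangle (u := y₀) (v := γ hh) (w := v)
        have t3 := hc.dist_triangle (u := γ hh) (v := γ p) (w := v)
        rw [SimpleGraph.dist_comm (u := γ t) (v := γ p)] at t1
        omega
      have hc1 := conn_map φ.symm hlens h3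
      have m1 := (mem_sl.1 (Finset.mem_coe.1 h3.left_mem.1)).1
      have m2 := (mem_sl.1 (Finset.mem_coe.1 h3.right_mem.1)).1
      refine hsep _ _ ?_ ?_ hc1.symm
      · rw [hdc]
        have := (key y' m2 t h2).2
        omega
      · rw [hdc']
        have k1 := (key x' m1 hh h1).2
        have t2 := hc.dist_triangle (u := y₀) (v := γ hh) (w := x')
        omega
  · exact (Finset.card_filter_le _ _).trans Finset.card_image_le

end Pool.Agent.Lib.MP_688fd0_co.ASY.H20
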